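import Mathlib
import Pool.Agent.Helper79.Game.Final
import Pool.Agent.Helper79.ZF.Univ

/-!
# Q2 has a negative answer in every Cohen extension

Every countable model of ZFC has an end extension with the same ordinals (an extension by one Cohen real)
which is a model of ZFC in which, for some regular uncountable `κ`, there are an `(ω+1)`-perfect set `D`, a
closed set `E` and a continuous surjection from `D` onto `E` such that for no `X ⊆ E` with `|X| ≤ κ^{<κ}`
the set `E \ X` is `(ω+1)`-perfect.  Since countable models of ZFC exist (elementary submodels of `ZFSet`),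
there is such a model.
-/

open Pool.Agent.Helper79.ZF Pool.Agent.Helper79.Kurepa Pool.Agent.Helper79.Game

theorem Pool.Agent.Results.MP_b008e1_lc.CohenQ2.result :
    (∀ (M : Type) [Membership M M] [Countable M], ZFCModel M →
      ∃ (N : Type) (_ : Membership N N), ZFCModel N ∧ NegQ2 N ∧ ∃ ι : M → N, OrdEndExt ι) ∧
    ∃ (N : Type) (_ : Membership N N), ZFCModel N ∧ NegQ2 N := by
  refine ⟨fun M _ _ h => ?_, ?_⟩
  · obtain ⟨N, mN, h1, _, h2, h3⟩ := main_countable M h
    exact ⟨N, mN, h1, h2, h3⟩
  · obtain ⟨S, mS, hS, h⟩ := exists_zfc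
    obtain ⟨N, mN, h1, _, h2, _⟩ := main_countable S h
    exact ⟨N, mN, h1, h2⟩
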